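import Pool.Agent.V1185.Beam.Comb

open Finset

namespace Pool.Agent.Results.MP_0955de_an.TwoSegments

/-- The `k`-th mode of `u_tt + u_xxxx = 0`, `2π`-periodic in `x`, with coefficients
`cp k = c_k^+`, `cm k = c_k^-`. -/
noncomputable def mode (cp cm : ℤ → ℂ) (k : ℤ) (t x : ℝ) : ℂ :=
  if k = 0 then cp 0 + cm 0 * t
  else (cp k * Complex.exp (Complex.I * ((k : ℂ) ^ 2 * t)) +
      cm k * Complex.exp (-(Complex.I * ((k : ℂ) ^ 2 * t)))) *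
    Complex.exp (Complex.I * (k * x))

/-- The solution with coefficients `c_k^+, c_k^-`, `k ∈ K`, and no other modes. -/
noncomputable def u (K : Finset ℤ) (cp cm : ℤ → ℂ) (t x : ℝ) : ℂ :=
  ∑ k ∈ K, mode cp cm k t x

/-- For all distinct non-integer rational speeds the two-segment inverse inequality holds. -/
theorem result (a₁ a₂ : ℚ) (h₁₂ : a₁ ≠ a₂) (h₁ : ∀ n : ℤ, a₁ ≠ n) (h₂ : ∀ n : ℤ, a₂ ≠ n)
    (t₁ x₁ t₂ x₂ T : ℝ) (hT : 0 < T) :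
    ∃ C : ℝ, ∀ (K : Finset ℤ) (cp cm : ℤ → ℂ),
      ∑ k ∈ K, (‖cp k‖ ^ 2 + ‖cm k‖ ^ 2) ≤
        C * ∫ t in (0:ℝ)..T, (‖u K cp cm (t₁ + t) (x₁ - a₁ * t)‖ ^ 2 +
          ‖u K cp cm (t₂ + t) (x₂ - a₂ * t)‖ ^ 2) := by
  have hd : ∀ a : ℚ, (∀ n : ℤ, a ≠ n) → ¬ ((a.den : ℤ) ∣ a.num) := by
    intro a ha hdvd
    obtain ⟨n, hn⟩ := hdvd
    apply ha n
    have h3 : (a.den : ℚ) ≠ 0 := by exact_mod_cast a.den_nz
    rw [← Rat.num_div_den a, hn]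
    push_cast
    field_simp
  have hcast : ∀ a : ℚ, (a : ℝ) = (a.num : ℝ) / ((a.den : ℤ) : ℝ) := by
    intro a
    rw [Rat.cast_def]
    push_cast
    rfl
  have hne : a₁.num * (a₂.den : ℤ) ≠ a₂.num * (a₁.den : ℤ) := by
    intro h
    apply h₁₂
    exact Rat.eq_iff_mul_eq_mul.2 h
  obtain ⟨C, hC⟩ := Pool.Agent.V1185.Beam.two_seg (p₁ := a₁.num) (q₁ := a₁.den)
    (p₂ := a₂.num) (q₂ := a₂.den) (by exact_mod_cast a₁.den_pos) (by exact_mod_cast a₂.den_pos)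
    (hd a₁ h₁) (hd a₂ h₂) hne t₁ x₁ t₂ x₂ hT
  refine ⟨C, ?_⟩
  intro K cp cm
  have := hC K cp cm
  rw [← hcast, ← hcast] at this
  exact this

end Pool.Agent.Results.MP_0955de_an.TwoSegments
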